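import Pool.Agent.Helper91.SY.Heads

/-!
# Packet SY-CX (project SY, MP_126465_gt): linear algebra
-/

set_option autoImplicit false

open Set Filter Topology
open scoped ContDiff

namespace Pool.Agent.Helper95.SY

open Pool.Agent.Helper91.SY

lemma w0_comb {n : ℕ} (s t : ℝ) (a b v : V n) :
    w0 (s • a + t • b) v = s * w0 a v + t * w0 b v := by
  unfold w0
  rw [Finset.mul_sum, Finset.mul_sum, ← Finset.sum_add_distrib]
  refine Finset.sum_congr rfl fun i _ => ?_
  simp only [Prod.fst_add, Prod.snd_add, Prod.smul_fst, Prod.smul_snd, Pi.add_apply, Pi.smul_apply,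
    smul_eq_mul]
  ring

lemma repr_form {n : ℕ} (ℓ : V n →L[ℝ] ℝ) : ∃ e : V n, ∀ v, w0 e v = ℓ v := by
  refine ⟨(fun i => ℓ (0, Pi.single i 1), fun i => -ℓ (Pi.single i 1, 0)), fun v => ?_⟩
  have hv : v = ∑ i : Fin n, (v.2 i • ((0, Pi.single i 1) : V n) +
      v.1 i • ((Pi.single i 1, 0) : V n)) := by
    ext j
    · simp [Prod.fst_sum, Finset.sum_apply, Pi.single_apply]
    · simp [Prod.snd_sum, Finset.sum_apply, Pi.single_apply]
  conv_rhs => rw [hv]
  rw [map_sum]
  unfold w0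
  refine Finset.sum_congr rfl fun i _ => ?_
  rw [map_add, map_smul, map_smul]
  simp only [smul_eq_mul]
  ring

lemma dual_pair {n : ℕ} {e₁ e₂ : V n} (h : LinearIndependent ℝ ![e₁, e₂]) (i : Fin 2) :
    ∃ τ : V n →L[ℝ] ℝ, ∀ j, τ (![e₁, e₂] j) = if j = i then 1 else 0 := by
  let b := Module.Basis.span h
  obtain ⟨g, hg⟩ := LinearMap.exists_extend (b.coord i)
  refine ⟨LinearMap.toContinuousLinearMap g, fun j => ?_⟩
  have h1 : g ((b j : _) : V n) = b.coord i (b j) := by
    rw [← hg]; rfl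
  have h2 : ((b j : _) : V n) = ![e₁, e₂] j := congrArg Subtype.val (Module.Basis.span_apply h j)
  rw [h2] at h1
  rw [LinearMap.coe_toContinuousLinearMap', h1, Module.Basis.coord_apply, Module.Basis.repr_self,
    Finsupp.single_apply]

theorem cx_ : StmtCX := by
  intro n
  refine ⟨repr_form, ?_, ?_, ?_⟩
  · intro ℓ₁ ℓ₂ e₁ e₂ h h1 h2
    rw [LinearIndependent.pair_iff] at h ⊢
    intro s t hst
    refine h s t ?_
    refine ContinuousLinearMap.ext fun v => ?_
    have := w0_comb s t e₁ e₂ v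
    rw [hst, h1, h2] at this
    change s * ℓ₁ v + t * ℓ₂ v = 0
    rw [← this]
    simp [w0]
  · intro e₁ e₂ h
    obtain ⟨τ, hτ⟩ := dual_pair h 0
    obtain ⟨τ₂, hτ₂⟩ := dual_pair h 1
    refine ⟨τ, τ₂, ?_, ?_, ?_, ?_⟩
    · simpa using hτ 0
    · simpa using hτ 1
    · simpa using hτ₂ 0
    · simpa using hτ₂ 1
  · intro e he
    exact SeparatingDual.exists_eq_one he

end Pool.Agent.Helper95.SY
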